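import Pool.Agent.Results.MP_f73b56_co.ManyEdges
import Pool.Agent.E8helper57.AV.Sum
import Pool.Agent.E8helper89.AV.Start
import Pool.Agent.E8helper55.AV.End
import Pool.Agent.E8helper10.AV.Claim
import Pool.Agent.E8helper13.AV.Sparse
import Pool.Agent.E8helper81.AV.Geo

/-!
The sharp upper bound for the number of edges of arc `k`-visibility graphs.
-/

set_option autoImplicit false

namespace Pool.Agent.Results.MP_f73b56_co.ExactValueH57

open Pool.Agent.X63 Pool.Agent.E8helper57.AV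

/-- the numbers of edges of the arc `k`-visibility graphs on `n` vertices; `e_k(n)` is the
greatest element of this set -/
def EdgeCounts (k n : ℕ) : Set ℕ :=
  {e | ∃ G : SimpleGraph (Fin n), IsArcVis k G ∧ G.edgeSet.ncard = e}

/-- the upper bound -/
theorem upper (k n : ℕ) (hn : 2 * k + 2 ≤ n) (e : ℕ) (he : e ∈ EdgeCounts k n) :
    2 * e + 3 * (k + 1) * (k + 2) ≤ 6 * (k + 1) * n := by
  obtain ⟨G, hG, rfl⟩ := he
  obtain ⟨A, hA⟩ := Pool.Agent.E8helper81.AV.t_GEO n k G hG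
  have h := t_UB Pool.Agent.E8helper89.AV.t_START Pool.Agent.E8helper55.AV.t_END
    Pool.Agent.E8helper10.AV.t_CLAIM Pool.Agent.E8helper13.AV.t_SPARSE n k A hn
  omega

/-- `U - (k + 2) / 2 * 3 (k + 1)` without fractions -/
theorem val (k n : ℕ) (hn : 2 * k + 2 ≤ n) :
    2 * (3 * (k + 1) * (2 * n - k - 2) / 2) + 3 * (k + 1) * (k + 2) = 6 * (k + 1) * n := by
  obtain ⟨m, rfl⟩ := Nat.exists_eq_add_of_le hn
  have e1 : 2 * (2 * k + 2 + m) - k - 2 = 3 * k + 2 + 2 * m := by omega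
  rw [e1]
  have h2 : 2 ∣ 3 * (k + 1) * (3 * k + 2 + 2 * m) := by
    rcases Nat.even_or_odd' k with ⟨c, hc | hc⟩
    · exact Dvd.dvd.mul_left (by omega) _
    · refine Dvd.dvd.mul_right (Dvd.dvd.mul_left (by omega) _) _
  rw [Nat.mul_div_cancel' h2]
  ring

/-- the two bounds for `n ≤ 5 k + 6` -/
theorem choose_le (k n : ℕ) (h1 : 2 * k + 2 ≤ n) (h2 : n ≤ 5 * k + 6) :
    n * (n - 1) / 2 ≤ 3 * (k + 1) * (2 * n - k - 2) / 2 := by
  have hv := val k n h1
  have h3 : n * (n - 1) + 3 * (k + 1) * (k + 2) ≤ 6 * (k + 1) * n := by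
    obtain ⟨m, rfl⟩ := Nat.exists_eq_add_of_le h1
    have e1 : 2 * k + 2 + m - 1 = 2 * k + 1 + m := by omega
    rw [e1]
    have h4 : m ≤ 3 * k + 4 := by omega
    nlinarith [Nat.mul_le_mul_left m h4, Nat.mul_le_mul_left k h4]
  omega

/-- Write `U = 3 (k + 1) (n - (k + 2) / 2)`. -/
theorem result :
    (∀ k n : ℕ, 2 * k + 2 ≤ n → ∀ e ∈ EdgeCounts k n,
      e ≤ 3 * (k + 1) * (2 * n - k - 2) / 2) ∧
    (∀ k n : ℕ, 6 * k + 6 ≤ n →
      IsGreatest (EdgeCounts k n) (3 * (k + 1) * (2 * n - k - 2) / 2)) ∧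
    (∀ k n : ℕ, 4 * k + 4 < n → n ≤ 5 * k + 6 ∨ 6 * k + 6 ≤ n →
      IsGreatest (EdgeCounts k n)
        (min (n * (n - 1) / 2) (3 * (k + 1) * (2 * n - k - 2) / 2))) := by
  have hup : ∀ k n : ℕ, 2 * k + 2 ≤ n → ∀ e ∈ EdgeCounts k n,
      e ≤ 3 * (k + 1) * (2 * n - k - 2) / 2 := by
    intro k n hn e he
    have h1 := upper k n hn e he
    have h2 := val k n hn
    omega
  have hex : ∀ k n : ℕ, 6 * k + 6 ≤ n →
      IsGreatest (EdgeCounts k n) (3 * (k + 1) * (2 * n - k - 2) / 2) := by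
    intro k n hn
    have hn' : 2 * k + 2 ≤ n := by omega
    refine ⟨?_, fun e he => hup k n hn' e he⟩
    obtain ⟨e, he, h1⟩ := ManyEdges.result.2 k n (by omega)
    have h2 := hup k n hn' e he
    have h3 := val k n hn'
    have h4 : 6 * k + 6 - n = 0 := by omega
    rw [h4] at h1
    have h5 : 3 * (k + 1) * (2 * n) = 6 * (k + 1) * n := by ring
    have h6 : e = 3 * (k + 1) * (2 * n - k - 2) / 2 := by omega
    rw [← h6]
    exact he
  refine ⟨hup, hex, fun k n h1 h2 => ?_⟩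
  rcases h2 with h2 | h2
  · rw [min_eq_left (choose_le k n (by omega) h2)]
    exact ManyEdges.result.1 k n h2
  · have h3 := hex k n h2
    have h4 : 3 * (k + 1) * (2 * n - k - 2) / 2 ≤ n * (n - 1) / 2 := by
      obtain ⟨G, _, hG⟩ := h3.1
      rw [← hG]
      exact ManyEdges.ncard_le_choose G
    rw [min_eq_right h4]
    exact h3

end Pool.Agent.Results.MP_f73b56_co.ExactValueH57
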